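import Pool.Agent.Helper27.CoverDecompDefs
import Pool.Agent.Helper27.CoverDecompProof

set_option autoImplicit false

universe u

namespace Pool.Agent.Results.MP_6bd959_co.BoundedExample

open Pool.Agent.Helper27.CoverDecomp

/-- There is a bounded planar set that is cover-decomposable but not totally-cover-decomposable. -/
theorem result : ∃ P : Set Plane, Bornology.IsBounded P ∧ CoverDecomposable.{u} P ∧
    ¬ TotallyCoverDecomposable.{u} P :=
  exists_bounded

end Pool.Agent.Results.MP_6bd959_co.BoundedExample
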